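import Pool.Agent.Y851.DK.Stm2

/-! DK-MN (job 10484): the mean of `exp (c sg |m|)`. -/

set_option autoImplicit false

namespace Pool.Agent.Y948.DK

open Finset Filter Pool.Agent.Y851.DK

lemma sgn_one (m : ℕ) : sgn 1 m = sg m := by
  unfold sgn sg
  rw [Finset.filter_true_of_mem]
  intro p hp hdvd
  exact (Nat.prime_of_mem_primeFactors hp).one_lt.ne' (Nat.dvd_one.1 hdvd)

lemma split (M : ℕ) (F : ℕ → ℝ) (hF : ∀ n, 0 ≤ F n) :
    ∑ m ∈ (Icc (-(M : ℤ)) (M : ℤ)).filter (fun m => m ≠ 0), F m.natAbs ≤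
      2 * ∑ x ∈ Icc 1 M, F x := by
  set S1 : Finset ℤ := (Icc 1 M).image (fun x : ℕ => (x : ℤ)) with hS1
  set S2 : Finset ℤ := (Icc 1 M).image (fun x : ℕ => -(x : ℤ)) with hS2
  have hsub : (Icc (-(M : ℤ)) (M : ℤ)).filter (fun m => m ≠ 0) ⊆ S1 ∪ S2 := by
    intro m hm
    rw [Finset.mem_filter, Finset.mem_Icc] at hm
    obtain ⟨⟨h1, h2⟩, h3⟩ := hm
    rw [Finset.mem_union]
    rcases lt_or_gt_of_ne h3 with h | h
    · right
      exact Finset.mem_image.2 ⟨m.natAbs, Finset.mem_Icc.2 ⟨by omega, by omega⟩, by omega⟩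
    · left
      exact Finset.mem_image.2 ⟨m.natAbs, Finset.mem_Icc.2 ⟨by omega, by omega⟩, by omega⟩
  have e1 : ∑ m ∈ S1, F m.natAbs = ∑ x ∈ Icc 1 M, F x := by
    rw [hS1, Finset.sum_image (fun x _ y _ h => by exact_mod_cast h)]
    exact Finset.sum_congr rfl fun x _ => by rw [Int.natAbs_natCast]
  have e2 : ∑ m ∈ S2, F m.natAbs = ∑ x ∈ Icc 1 M, F x := by
    rw [hS2, Finset.sum_image (fun x _ y _ h => by
      have h' : (-(x : ℤ)) = -(y : ℤ) := h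
      omega)]
    exact Finset.sum_congr rfl fun x _ => by rw [Int.natAbs_neg, Int.natAbs_natCast]
  calc ∑ m ∈ (Icc (-(M : ℤ)) (M : ℤ)).filter (fun m => m ≠ 0), F m.natAbs
      ≤ ∑ m ∈ S1 ∪ S2, F m.natAbs :=
        Finset.sum_le_sum_of_subset_of_nonneg hsub fun m _ _ => hF _
    _ ≤ ∑ m ∈ S1 ∪ S2, F m.natAbs + ∑ m ∈ S1 ∩ S2, F m.natAbs :=
        le_add_of_nonneg_right (Finset.sum_nonneg fun m _ => hF _)
    _ = 2 * ∑ x ∈ Icc 1 M, F x := by
        rw [Finset.sum_union_inter, e1, e2]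
        ring

theorem t_MN : P_AVG → P_MN := by
  intro h c η hc hη
  obtain ⟨C, hC, hev⟩ := h c η hc hη
  refine ⟨2 * C, by linarith, ?_⟩
  filter_upwards [hev, eventually_ge_atTop 1] with X hX h1 M hM1 hM2
  have h2 := hX M hM1 hM2 1 0 le_rfl (by push_cast; nlinarith) (by push_cast; positivity)
  have h3 : ∑ x ∈ Icc 1 M, Real.exp (c * sgn 1 ((((1 : ℕ) : ℤ) * (x : ℤ) - ((0 : ℕ) : ℤ)).natAbs)) =
      ∑ x ∈ Icc 1 M, Real.exp (c * sg x) := by
    refine Finset.sum_congr rfl fun x _ => ?_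
    rw [sgn_one]
    congr 3
    push_cast
    omega
  rw [h3] at h2
  have h4 := split M (fun n => Real.exp (c * sg n)) fun n => (Real.exp_pos _).le
  linarith

end Pool.Agent.Y948.DK
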